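import Pool.Agent.P.MP_b23894_gt.Main

open Pool.Agent.P.MP_b23894_gt

theorem Pool.Agent.Results.MP_b23894_gt.CornerReduction.result :
    ∀ (m n : ℕ) (a : ℕ → ℕ → ℤ), 2 ≤ m → 2 ≤ n → 0 < a 1 1 * a 2 1 →
      crossingNumber (plat m n a) <
        ∑ i ∈ Finset.Icc 1 n, ∑ j ∈ Finset.Icc 1 (rowLen m i), (a i j).natAbs :=
  Pool.Agent.P.MP_b23894_gt.main
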